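import Pool.Agent.H71.CQ.Basic

/-!
# Countable-to-one families on a countable infinite set (row CTV)
-/

set_option autoImplicit false

open Set

namespace Pool.Agent.H36.CQ

open Pool.Agent.H71.CQ

theorem pf_CTV (hCTO : T_CTO) : T_CTV := by
  intro L _ _ N V _ _ F hF hM hc
  obtain ⟨c⟩ : Nonempty (V ≃ ℕ) := nonempty_equiv_of_countable
  set G : (ℕ → Bool) → ℕ → ℕ → L := fun u i j => F u (c.symm i) (c.symm j) with hG
  have hGF : ∀ u, IsIso (G u) (F u) c.symm := fun u => isIso_comap c.symm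
  have hGm : Measurable G :=
    measurable_pi_iff.2 fun i => measurable_pi_iff.2 fun j => hF (c.symm i) (c.symm j)
  have hiso : ∀ u v, Iso (G u) (G v) → Iso (F u) (F v) := by
    intro u v h
    have h1 : Iso (F u) (G u) := ⟨_, (hGF u).symm⟩
    have h2 : Iso (G v) (F v) := ⟨_, hGF v⟩
    exact (h1.trans h).trans h2
  have hcc : ∀ u, {v | Iso (G u) (G v)}.Countable := fun u =>
    (hc u).mono fun v hv => hiso u v hv
  obtain ⟨f, hf, hff⟩ := hCTO L G hGm hcc
  exact ⟨fun u => G (f u), hGm.comp hf, fun u => (hGF (f u)).symm.mem (hM (f u)), hff⟩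

end Pool.Agent.H36.CQ
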