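import Pool.Agent.H71.CQ.Basic
import Pool.Agent.H73.HV.Silver

/-!
# Silver's theorem for a measurable set (row SIL)
-/

set_option autoImplicit false

open Set

namespace Pool.Agent.H36.CQ

open Pool.Agent.H71.CQ

theorem pf_SIL : T_SIL := by
  intro Ω _ _ X hX E hr hs ht hE
  rcases X.eq_empty_or_nonempty with hem | hne
  · left
    refine ⟨∅, Set.empty_subset _, Set.countable_empty, fun a ha => ?_⟩
    rw [hem] at ha
    exact ha.elim
  have hstd : StandardBorelSpace X := hX.standardBorel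
  have hne' : Nonempty X := hne.to_subtype
  let _ := upgradeStandardBorel X
  obtain ⟨φ, hφ, hφs⟩ := PolishSpace.exists_nat_nat_continuous_surjective X
  let R : Setoid (ℕ → ℕ) := {
    r := fun a b => E (φ a : Ω) (φ b : Ω)
    iseqv := ⟨fun a => hr _ (φ a).2, fun {a b} h => hs _ (φ a).2 _ (φ b).2 h,
      fun {a b c} h h' => ht _ (φ a).2 _ (φ b).2 _ (φ c).2 h h'⟩ }
  have hm : Measurable fun a : ℕ → ℕ => (φ a : Ω) := measurable_subtype_coe.comp hφ.measurable
  have hEm : MeasurableSet {p : (ℕ → ℕ) × (ℕ → ℕ) | R p.1 p.2} := by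
    have h1 : Measurable fun p : (ℕ → ℕ) × (ℕ → ℕ) => ((φ p.1 : Ω), (φ p.2 : Ω)) :=
      (hm.comp measurable_fst).prodMk (hm.comp measurable_snd)
    exact h1 hE
  rcases Pool.Agent.H73.HV.silver R hEm with hc | ⟨F, hF, hFE⟩
  · left
    have : Countable (Quotient R) := hc
    refine ⟨Set.range fun q : Quotient R => (φ q.out : Ω), ?_, Set.countable_range _,
      fun y hy => ?_⟩
    · rintro _ ⟨q, rfl⟩
      exact (φ q.out).2
    · obtain ⟨a, ha⟩ := hφs ⟨y, hy⟩
      refine ⟨_, ⟨Quotient.mk R a, rfl⟩, ?_⟩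
      have h2 : R a (Quotient.mk R a).out := R.iseqv.symm (Quotient.mk_out a)
      have h3 : E (φ a : Ω) (φ (Quotient.mk R a).out : Ω) := h2
      rw [ha] at h3
      exact h3
  · right
    exact ⟨fun u => (φ (F u) : Ω), hm.comp hF.measurable, fun u => (φ (F u)).2,
      fun u v huv => hFE u v huv⟩

end Pool.Agent.H36.CQ
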